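import Pool.Agent.Run7.h608.BC.Iface

/-!
# Project BC (helper608), piece FOU: the Fourier transform of the density (helper600)
-/

set_option autoImplicit false

open MeasureTheory Set Filter Topology
open scoped ENNReal ContDiff FourierTransform

namespace Run7.h600.BC

open Run7.h608.BC

theorem H_eq (h : ℝ → ℝ) : H h = 𝓕 (fun v : ℝ => ((h v : ℝ) : ℂ)) := by
  funext ξ
  rw [Real.fourier_real_eq_integral_exp_smul]
  unfold H
  refine integral_congr_ae (Eventually.of_forall fun y => ?_)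
  show (h y : ℂ) * e (-(ξ * y)) = Complex.exp (↑(-2 * Real.pi * y * ξ) * Complex.I) • (h y : ℂ)
  unfold e
  rw [smul_eq_mul, mul_comm, show 2 * Real.pi * -(ξ * y) = -2 * Real.pi * y * ξ by ring]

theorem e_norm (θ : ℝ) : ‖e θ‖ = 1 := by
  unfold e
  exact Complex.norm_exp_ofReal_mul_I _

theorem e_cont : Continuous e := by
  unfold e
  fun_prop

theorem e_add (a b : ℝ) : e (a + b) = e a * e b := by
  unfold e
  rw [← Complex.exp_add]
  congr 1
  push_cast
  ring

theorem e_zero : e 0 = 1 := by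
  unfold e
  simp

theorem G_int (h : ℝ → ℝ) (hi : Integrable h) (ξ : ℝ) :
    Integrable (fun y : ℝ => (h y : ℂ) * e (-(ξ * y))) := by
  have hF : Integrable (fun y : ℝ => (h y : ℂ)) := hi.ofReal
  refine hF.mono (hF.aestronglyMeasurable.mul ?_) (Eventually.of_forall fun y => ?_)
  · exact (e_cont.comp (by fun_prop : Continuous fun y : ℝ => -(ξ * y))).aestronglyMeasurable
  · rw [norm_mul, e_norm, mul_one]

theorem t_FOU : S_FOU := by
  intro β h hβ hD
  have hβ0 : (0:ℝ) < β := by linarith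
  refine ⟨?_, ?_, ?_, ?_⟩
  · rw [H_eq]
    refine Real.contDiff_fourier (N := ⊤) fun n _ => ?_
    have hF : Integrable (fun y : ℝ => (h y : ℂ)) := hD.int.ofReal
    have hb : (0:ℝ) ≤ 1 / (β - 1) := by
      apply div_nonneg zero_le_one
      linarith
    refine ((hF.norm).const_mul ((1 / (β - 1)) ^ n)).mono' ?_ (Eventually.of_forall fun v => ?_)
    · exact (continuous_norm.pow n).aestronglyMeasurable.mul hF.norm.aestronglyMeasurable
    · show ‖‖v‖ ^ n * ‖(h v : ℂ)‖‖ ≤ (1 / (β - 1)) ^ n * ‖(h v : ℂ)‖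
      rw [Real.norm_of_nonneg (by positivity)]
      by_cases hv : v ∈ Icc (0:ℝ) (1 / (β - 1))
      · apply mul_le_mul_of_nonneg_right _ (norm_nonneg _)
        apply pow_le_pow_left₀ (norm_nonneg _)
        rw [Real.norm_of_nonneg hv.1]
        exact hv.2
      · rw [hD.supp v hv]
        simp
  · unfold H
    have : ∀ y : ℝ, (h y : ℂ) * e (-(0 * y)) = ((h y : ℝ) : ℂ) := by
      intro y
      rw [zero_mul, neg_zero, e_zero, mul_one]
    simp only [this]
    rw [integral_complex_ofReal, hD.mass]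
    simp
  · intro ξ
    obtain ⟨G, hG⟩ : ∃ G : ℝ → ℂ, G = fun y : ℝ => (h y : ℂ) * e (-(ξ * y)) := ⟨_, rfl⟩
    have hGi : Integrable G := by rw [hG]; exact G_int h hD.int ξ
    have e1 : H h (β * ξ) = ∫ x, ((β / 2 : ℝ) : ℂ) * (G (β * x) + e (-ξ) * G (β * x - 1)) := by
      unfold H
      refine integral_congr_ae ?_
      filter_upwards [hD.fe] with x hx
      rw [hx, hG]
      have a1 : e (-(β * ξ * x)) = e (-(ξ * (β * x))) := by congr 1; ring
      have a2 : e (-(β * ξ * x)) = e (-ξ) * e (-(ξ * (β * x - 1))) := by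
        rw [← e_add]; congr 1; ring
      have a3 : ((β / 2 * (h (β * x) + h (β * x - 1)) : ℝ) : ℂ) * e (-(β * ξ * x)) =
          ((β / 2 : ℝ) : ℂ) * ((h (β * x) : ℂ) * e (-(β * ξ * x)) +
            (h (β * x - 1) : ℂ) * e (-(β * ξ * x))) := by
        push_cast; ring
      rw [a3]
      nth_rewrite 1 [a1]
      rw [a2]
      ring
    have i1 : Integrable (fun x : ℝ => G (β * x)) := hGi.comp_mul_left' hβ0.ne'
    have i2' : Integrable (fun x : ℝ => G (x - 1)) := hGi.comp_sub_right 1
    have i2 : Integrable (fun x : ℝ => G (β * x - 1)) :=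
      i2'.comp_mul_left' (g := fun x : ℝ => G (x - 1)) hβ0.ne'
    have j1 : ∫ x : ℝ, G (β * x) = ((β⁻¹ : ℝ) : ℂ) * ∫ y, G y := by
      rw [Measure.integral_comp_mul_left G β, abs_of_pos (inv_pos.2 hβ0)]
      simp
    have j2 : ∫ x : ℝ, G (β * x - 1) = ((β⁻¹ : ℝ) : ℂ) * ∫ y, G y := by
      rw [Measure.integral_comp_mul_left (fun y : ℝ => G (y - 1)) β, abs_of_pos (inv_pos.2 hβ0),
        integral_sub_right_eq_self G 1]
      simp
    have hHG : H h ξ = ∫ y, G y := by rw [hG]; rfl
    rw [e1, integral_const_mul, integral_add i1 (i2.const_mul _), integral_const_mul, j1, j2, hHG]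
    unfold m
    have hβc : ((β : ℝ) : ℂ) ≠ 0 := by exact_mod_cast hβ0.ne'
    push_cast
    field_simp
  · rw [H_eq]
    exact Real.zero_at_infty_fourier _

end Run7.h600.BC
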