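import Pool.Agent.Run7.h608.BC.Iface

/-!
# Project BC (helper608), piece LEB (helper600)
-/

set_option autoImplicit false

open MeasureTheory Set Filter Topology
open scoped ENNReal ContDiff

namespace Run7.h600.BC

open Run7.h608.BC

theorem t_LEB : S_LEB := by
  intro h hh
  filter_upwards [IsUnifLocDoublingMeasure.ae_tendsto_average_norm_sub
    (μ := (volume : Measure ℝ)) hh.locallyIntegrable 1] with x hx
  have h1 := hx (l := 𝓝[>] (0:ℝ)) (fun _ => x) (fun r => r) tendsto_id (by
    filter_upwards [self_mem_nhdsWithin] with r hr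
    rw [one_mul]
    exact Metric.mem_closedBall_self (le_of_lt hr))
  have h2 := h1.const_mul 2
  rw [mul_zero] at h2
  refine h2.congr' ?_
  filter_upwards [self_mem_nhdsWithin] with r hr
  have hr0 : (0:ℝ) < r := hr
  rw [setAverage_eq, Real.closedBall_eq_Icc, Real.volume_real_Icc_of_le (by linarith), smul_eq_mul]
  simp only [Real.norm_eq_abs]
  have : x + r - (x - r) = 2 * r := by ring
  rw [this]
  field_simp

end Run7.h600.BC
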